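import Mathlib

set_option autoImplicit false

namespace Pool.Agent.Results.MP_387adc_co.No

open Polynomial

/-- all coefficients lie in `{0, 1} ∪ ℚ_{≥ 2}` -/
def InP (p : ℝ[X]) : Prop := ∀ i, p.coeff i = 0 ∨ p.coeff i = 1 ∨ ∃ q : ℚ, 2 ≤ q ∧ p.coeff i = q

theorem alt (r : ℝ[X]) (k : ℕ) (x : Fin (k + 2) → ℝ) (hx : StrictMono x)
    (h : ∀ j, 0 < (-1) ^ j.1 * r.eval (x j)) : k + 1 ≤ r.natDegree := by
  have h0 : r ≠ 0 := by rintro rfl; simpa using h 0
  have h1 : ∀ j : Fin (k + 1), ∃ c ∈ Set.Ioo (x j.castSucc) (x j.succ), r.eval c = 0 := by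
    intro j
    have a := h j.castSucc
    have b := h j.succ
    rw [Fin.val_succ, pow_succ] at b
    have hc : Continuous fun y => (-1 : ℝ) ^ j.1 * r.eval y := by fun_prop
    obtain ⟨c, hc1, hc2⟩ := intermediate_value_Ioo' (hx j.castSucc_lt_succ).le hc.continuousOn
      (show (0 : ℝ) ∈ Set.Ioo _ _ from ⟨by linarith, a⟩)
    exact ⟨c, hc1, by simpa using hc2⟩
  choose c hc1 hc2 using h1
  have hm : StrictMono c := fun i j hij =>
    (hc1 i).2.trans_le ((hx.monotone (show i.succ ≤ j.castSucc from hij)).trans (hc1 j).1.le)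
  refine le_trans ?_ ((Multiset.toFinset_card_le _).trans (card_roots' r))
  simpa using Finset.card_le_card_of_injOn c (s := Finset.univ) (t := r.roots.toFinset)
    (fun j _ => by simp [h0, hc2]) hm.injective.injOn

theorem deg {p : ℝ[X]} (hp : InP p) {s : ℝ} (hs : 1 < s) (h0 : p ≠ 0) :
    s ^ p.natDegree ≤ p.eval s := by
  have a : ∀ i, 0 ≤ p.coeff i ∧ (p.coeff i ≠ 0 → 1 ≤ p.coeff i) := fun i => by
    rcases hp i with h | h | ⟨q, h1, h⟩ <;> rw [h]
    · simp
    · simp
    · have : (2 : ℝ) ≤ q := by exact_mod_cast h1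
      exact ⟨by linarith, fun _ => by linarith⟩
  rw [eval_eq_sum_range]
  refine le_trans ?_ (Finset.single_le_sum (f := fun i => p.coeff i * s ^ i)
    (fun i _ => mul_nonneg (a i).1 (by positivity)) (Finset.self_mem_range_succ _))
  exact le_mul_of_one_le_left (by positivity) ((a _).2 (leadingCoeff_ne_zero.2 h0))

theorem result (s t : ℝ) (hs : 1 < s) (hst : s < t) :
    ¬ ∃ f : WithTop (Finset ℕ) → ℝ[X], (∀ a, InP (f a)) ∧
      ∀ a b, a ≤ b ↔ ∀ x ∈ Set.Icc s t, (f a).eval x ≤ (f b).eval x := by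
  rintro ⟨f, hP, hf⟩
  obtain ⟨k, hk⟩ := pow_unbounded_of_one_lt ((f ⊤).eval s) hs
  have hd : ∀ a, (f a).natDegree ≤ k := fun a => by
    by_cases h0 : f a = 0
    · simp [h0]
    · exact ((pow_lt_pow_iff_right₀ hs).1 (((deg (hP a) hs h0).trans
        ((hf a ⊤).1 le_top s ⟨le_rfl, hst.le⟩)).trans_lt hk)).le
  let g : Finset (Fin (k + 2)) → ℝ[X] := fun S => f (S.map Fin.valEmbedding : Finset ℕ)
  have hg : ∀ S T, S ⊆ T ↔ ∀ x ∈ Set.Icc s t, (g S).eval x ≤ (g T).eval x := fun S T => by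
    rw [← hf, WithTop.coe_le_coe]; exact Finset.map_subset_map.symm
  have h1 : ∀ i, ∃ y ∈ Set.Icc s t, (g {i}ᶜ).eval y < (g {i}).eval y := fun i => by
    by_contra hc
    push Not at hc
    simpa using (hg _ _).2 hc
  choose y hy1 hy2 using h1
  have h2 : ∀ S T i, i ∈ S → i ∉ T → (g T).eval (y i) < (g S).eval (y i) := fun S T i a b =>
    ((hg _ _).1 (by simpa using b) _ (hy1 i)).trans_lt
      ((hy2 i).trans_le ((hg _ _).1 (by simpa using a) _ (hy1 i)))
  have hi : Function.Injective y := fun i j e => by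
    by_contra hne
    have a := h2 {i} {j} i (by simp) (by simpa using hne)
    have b := h2 {j} {i} j (by simp) (by simpa using Ne.symm hne)
    rw [e] at a
    linarith
  let σ := Tuple.sort y
  let S : Finset (Fin (k + 2)) := Finset.univ.filter fun i => Even (σ.symm i).1
  have h3 := alt (g S - g Sᶜ) k (y ∘ σ)
    ((Tuple.monotone_sort y).strictMono_of_injective (hi.comp σ.injective)) fun j => by
      rw [eval_sub]
      rcases Nat.even_or_odd j.1 with h | h
      · have := h2 S Sᶜ (σ j) (by simpa [S] using h) (by simpa [S] using h)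
        rw [h.neg_one_pow]; simpa using this
      · have := h2 Sᶜ S (σ j) (by simpa [S] using h) (by simpa [S] using h)
        rw [h.neg_one_pow]; simpa using this
  have := (natDegree_sub_le _ _).trans (max_le (hd (S.map Fin.valEmbedding : Finset ℕ))
    (hd (Sᶜ.map Fin.valEmbedding : Finset ℕ)))
  exact absurd (h3.trans this) (by omega)

end Pool.Agent.Results.MP_387adc_co.No
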